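import Mathlib

/-! Sandwiched conditional Rényi entropies of classical-quantum states. -/

open Matrix Kronecker ComplexOrder

namespace H143.Ric

set_option linter.unusedSectionVars false

variable {b c x : Type} [Fintype b] [DecidableEq b] [Fintype c] [DecidableEq c]
  [Fintype x] [DecidableEq x]

/-- The real power `M ^ s` of a Hermitian matrix, by functional calculus. As `0 ^ s = 0` in
Mathlib for `s ≠ 0`, this is the power on the support of `M` for a positive semidefinite `M`. -/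
noncomputable def mpow (M : Matrix b b ℂ) (s : ℝ) : Matrix b b ℂ :=
  cfc (fun t : ℝ => t ^ s) M

/-- The marginal on `B` of a matrix on `B ⊗ X`. -/
def marg (ρ : Matrix (b × x) (b × x) ℂ) : Matrix b b ℂ :=
  Matrix.of fun i j => ∑ k, ρ (i, k) (j, k)

/-- The sandwiched operator `ρ_B^γ ρ ρ_B^γ` with `γ = (1 - α) / (2 α)`. -/
noncomputable def sand (α : ℝ) (ρ : Matrix (b × x) (b × x) ℂ) : Matrix (b × x) (b × x) ℂ :=
  (mpow (marg ρ) ((1 - α) / (2 * α)) ⊗ₖ (1 : Matrix x x ℂ)) * ρ *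
    (mpow (marg ρ) ((1 - α) / (2 * α)) ⊗ₖ (1 : Matrix x x ℂ))

/-- The quantity `Tr[(ρ_B^γ ρ ρ_B^γ)^α]`. -/
noncomputable def Qtr (α : ℝ) (ρ : Matrix (b × x) (b × x) ℂ) : ℝ :=
  (trace (mpow (sand α ρ) α)).re

/-- The sandwiched conditional Rényi entropy of `X` given `B`. -/
noncomputable def condH (α : ℝ) (ρ : Matrix (b × x) (b × x) ℂ) : ℝ :=
  1 / (1 - α) * Real.log (Qtr α ρ)

/-- A density operator. -/
def IsDensity (σ : Matrix b b ℂ) : Prop := σ.PosSemidef ∧ σ.trace = 1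

/-- The state `1/2 ∑ₓ σₓ ⊗ |x⟩⟨x|` on `B ⊗ X`. -/
noncomputable def cq (σ : Fin 2 → Matrix b b ℂ) : Matrix (b × Fin 2) (b × Fin 2) ℂ :=
  Matrix.blockDiagonal fun k => (1 / 2 : ℂ) • σ k

/-- The state `1/4 ∑_{x₁,x₂} σ_{x₁} ⊗ σ'_{x₂} ⊗ |x₁ ⊕ x₂⟩⟨x₁ ⊕ x₂|` on `(B₁ ⊗ B₂) ⊗ X`. -/
noncomputable def tau (σ : Fin 2 → Matrix b b ℂ) (σ' : Fin 2 → Matrix c c ℂ) :
    Matrix ((b × c) × Fin 2) ((b × c) × Fin 2) ℂ :=
  Matrix.blockDiagonal fun k =>
    (1 / 4 : ℂ) • ∑ x₁ : Fin 2, ∑ x₂ : Fin 2, if x₁ + x₂ = k then σ x₁ ⊗ₖ σ' x₂ else 0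

/-! ### Functional calculus -/

lemma contOn (M : Matrix b b ℂ) (f : ℝ → ℝ) : ContinuousOn f (spectrum ℝ M) := by
  have : Finite (spectrum ℝ M) := (Matrix.finite_real_spectrum (A := M))
  rw [continuousOn_iff_continuous_domRestrict]; fun_prop

lemma aeval_conj_diag (U : Matrix b b ℂ) (h1 : U * star U = 1) (h2 : star U * U = 1)
    (d : b → ℝ) (q : Polynomial ℝ) :
    Polynomial.aeval (U * diagonal (fun i => (d i : ℂ)) * star U) q =
      U * diagonal (fun i => ((q.eval (d i) : ℝ) : ℂ)) * star U := by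
  induction q using Polynomial.induction_on with
  | C r =>
    have : (diagonal (fun i : b => ((Polynomial.eval (d i) (Polynomial.C r) : ℝ) : ℂ)) : Matrix b b ℂ)
        = algebraMap ℝ (Matrix b b ℂ) r := by
      ext i j
      simp [Matrix.algebraMap_matrix_apply, diagonal_apply]
    rw [this, Polynomial.aeval_C, ← Algebra.commutes, mul_assoc, h1, mul_one]
  | add p q hp hq =>
    have : (diagonal (fun i : b => ((Polynomial.eval (d i) (p + q) : ℝ) : ℂ)) : Matrix b b ℂ)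
        = diagonal (fun i => ((p.eval (d i) : ℝ) : ℂ)) + diagonal (fun i => ((q.eval (d i) : ℝ) : ℂ)) := by
      rw [diagonal_add]; congr 1; ext i; simp
    rw [map_add, hp, hq, this, mul_add, add_mul]
  | monomial n r ih =>
    have : (diagonal (fun i : b => ((Polynomial.eval (d i) (Polynomial.C r * Polynomial.X ^ (n + 1)) : ℝ) : ℂ)) : Matrix b b ℂ)
        = diagonal (fun i => ((Polynomial.eval (d i) (Polynomial.C r * Polynomial.X ^ n) : ℝ) : ℂ)) *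
          diagonal (fun i => (d i : ℂ)) := by
      rw [diagonal_mul_diagonal]; congr 1; ext i; simp [pow_succ]; ring
    rw [this, pow_succ, ← mul_assoc (Polynomial.C r), map_mul, ih, Polynomial.aeval_X]
    calc U * diagonal (fun i => ((Polynomial.eval (d i) (Polynomial.C r * Polynomial.X ^ n) : ℝ) : ℂ)) * star U *
          (U * diagonal (fun i => (d i : ℂ)) * star U)
        = U * diagonal (fun i => ((Polynomial.eval (d i) (Polynomial.C r * Polynomial.X ^ n) : ℝ) : ℂ)) *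
          (star U * U) * diagonal (fun i => (d i : ℂ)) * star U := by simp only [mul_assoc]
      _ = _ := by rw [h2]; simp only [mul_one, mul_assoc]

lemma cfc_kron (A : Matrix b b ℂ) (B : Matrix c c ℂ) (hA : A.PosSemidef) (hB : B.PosSemidef)
    (f : ℝ → ℝ) (hf : ∀ s t : ℝ, 0 ≤ s → 0 ≤ t → f (s * t) = f s * f t) :
    cfc f (A ⊗ₖ B) = cfc f A ⊗ₖ cfc f B := by
  classical
  have hAB : (A ⊗ₖ B).PosSemidef := hA.kronecker hB
  have hfin : (spectrum ℝ (A ⊗ₖ B)).Finite := Matrix.finite_real_spectrum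
  set a := hA.1.eigenvalues with ha
  set e := hB.1.eigenvalues with he
  set U : Matrix b b ℂ := (hA.1.eigenvectorUnitary : Matrix b b ℂ) with hU
  set V : Matrix c c ℂ := (hB.1.eigenvectorUnitary : Matrix c c ℂ) with hV
  have hU1 : U * star U = 1 := Unitary.coe_mul_star_self _
  have hU2 : star U * U = 1 := Unitary.coe_star_mul_self _
  have hV1 : V * star V = 1 := Unitary.coe_mul_star_self _
  have hV2 : star V * V = 1 := Unitary.coe_star_mul_self _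
  have hAe : A = U * diagonal (fun i => (a i : ℂ)) * star U := by
    conv_lhs => rw [hA.1.spectral_theorem]
    rfl
  have hBe : B = V * diagonal (fun i => (e i : ℂ)) * star V := by
    conv_lhs => rw [hB.1.spectral_theorem]
    rfl
  have hcA : cfc f A = U * diagonal (fun i => ((f (a i) : ℝ) : ℂ)) * star U := by
    rw [hA.1.cfc_eq]; rfl
  have hcB : cfc f B = V * diagonal (fun i => ((f (e i) : ℝ) : ℂ)) * star V := by
    rw [hB.1.cfc_eq]; rfl
  have hstar : star (U ⊗ₖ V) = star U ⊗ₖ star V := by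
    rw [star_eq_conjTranspose, conjTranspose_kronecker]; rfl
  have hW1 : (U ⊗ₖ V) * star (U ⊗ₖ V) = 1 := by
    rw [hstar, ← mul_kronecker_mul, hU1, hV1, one_kronecker_one]
  have hW2 : star (U ⊗ₖ V) * (U ⊗ₖ V) = 1 := by
    rw [hstar, ← mul_kronecker_mul, hU2, hV2, one_kronecker_one]
  have hABe : A ⊗ₖ B = (U ⊗ₖ V) * diagonal (fun p : b × c => ((a p.1 * e p.2 : ℝ) : ℂ)) *
      star (U ⊗ₖ V) := by
    have : (diagonal (fun p : b × c => ((a p.1 * e p.2 : ℝ) : ℂ)) : Matrix (b × c) (b × c) ℂ)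
        = diagonal (fun i => (a i : ℂ)) ⊗ₖ diagonal (fun i => (e i : ℂ)) := by
      rw [diagonal_kronecker_diagonal]; congr 1; ext p; simp
    rw [this, hstar, ← mul_kronecker_mul, ← mul_kronecker_mul, ← hAe, ← hBe]
  set S : Finset ℝ := hfin.toFinset ∪ Finset.univ.image (fun p : b × c => a p.1 * e p.2) with hS
  set q : Polynomial ℝ := Lagrange.interpolate S id f with hq
  have hqe : ∀ t ∈ S, q.eval t = f t := by
    intro t ht
    exact Lagrange.eval_interpolate_at_node f Function.injective_id.injOn ht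
  have h1 : cfc f (A ⊗ₖ B) = cfc q.eval (A ⊗ₖ B) := by
    apply cfc_congr
    intro t ht
    exact (hqe t (by rw [hS]; exact Finset.mem_union_left _ (hfin.mem_toFinset.2 ht))).symm
  rw [h1, cfc_polynomial q (A ⊗ₖ B) (show IsSelfAdjoint _ from hAB.1), hABe,
    aeval_conj_diag _ hW1 hW2, hcA, hcB]
  have : (diagonal (fun p : b × c => ((q.eval (a p.1 * e p.2) : ℝ) : ℂ)) : Matrix (b × c) (b × c) ℂ)
      = diagonal (fun i => ((f (a i) : ℝ) : ℂ)) ⊗ₖ diagonal (fun i => ((f (e i) : ℝ) : ℂ)) := by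
    rw [diagonal_kronecker_diagonal]; congr 1; ext p
    rw [hqe _ (by rw [hS]; exact Finset.mem_union_right _ (Finset.mem_image_of_mem _ (Finset.mem_univ p))),
      hf _ _ (hA.eigenvalues_nonneg _) (hB.eigenvalues_nonneg _)]
    simp [ha, he]
  rw [this, hstar, ← mul_kronecker_mul, ← mul_kronecker_mul]


lemma isHermitian_mpow (M : Matrix b b ℂ) (s : ℝ) : (mpow M s).IsHermitian :=
  cfc_predicate _ _

lemma spec_nonneg {M : Matrix b b ℂ} (hM : M.PosSemidef) {t : ℝ} (ht : t ∈ spectrum ℝ M) :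
    0 ≤ t := by
  rw [hM.1.spectrum_real_eq_range_eigenvalues] at ht
  obtain ⟨i, rfl⟩ := ht
  exact hM.eigenvalues_nonneg i

lemma gam_aux (n : ℕ) (hn : 2 ≤ n) (t : ℝ) (ht : 0 ≤ t) :
    (t ^ ((1 - (n : ℝ)) / (2 * n)) * t * t ^ ((1 - (n : ℝ)) / (2 * n))) ^ n = t := by
  have hn' : (2 : ℝ) ≤ n := by exact_mod_cast hn
  rcases ht.eq_or_lt with h | h
  · rw [← h]; simp; omega
  · have : t ^ ((1 - (n : ℝ)) / (2 * n)) * t * t ^ ((1 - (n : ℝ)) / (2 * n)) = t ^ ((n : ℝ)⁻¹) := by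
      calc t ^ ((1 - (n : ℝ)) / (2 * n)) * t * t ^ ((1 - (n : ℝ)) / (2 * n))
          = t ^ ((1 - (n : ℝ)) / (2 * n)) * t ^ (1 : ℝ) * t ^ ((1 - (n : ℝ)) / (2 * n)) := by
            rw [Real.rpow_one]
        _ = t ^ ((1 - (n : ℝ)) / (2 * n) + 1 + (1 - (n : ℝ)) / (2 * n)) := by
            rw [Real.rpow_add h, Real.rpow_add h]
        _ = _ := by congr 1; field_simp; ring
    rw [this]
    exact Real.rpow_inv_natCast_pow ht (by omega)

lemma sand_pow (n : ℕ) (hn : 2 ≤ n) (ρ : Matrix b b ℂ) (hρ : ρ.PosSemidef) :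
    (mpow ρ ((1 - (n : ℝ)) / (2 * n)) * ρ * mpow ρ ((1 - (n : ℝ)) / (2 * n))) ^ n = ρ := by
  have hs : IsSelfAdjoint ρ := hρ.1
  have h1 : mpow ρ ((1 - (n : ℝ)) / (2 * n)) * ρ * mpow ρ ((1 - (n : ℝ)) / (2 * n)) =
      cfc (fun t : ℝ => t ^ ((1 - (n : ℝ)) / (2 * n)) * t * t ^ ((1 - (n : ℝ)) / (2 * n))) ρ := by
    rw [cfc_mul _ _ ρ (contOn _ _) (contOn _ _), cfc_mul _ _ ρ (contOn _ _) (contOn _ _)]
    rw [cfc_id' ℝ ρ]; rfl
  rw [h1, ← cfc_pow _ _ ρ (contOn _ _)]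
  rw [cfc_congr (g := fun t : ℝ => t) (fun t ht => gam_aux n hn t (spec_nonneg hρ ht))]
  exact cfc_id' ℝ ρ

lemma trace_blk (n : ℕ) (N : Fin 2 → Matrix b b ℂ) (hN : ∀ k, (N k).IsHermitian) :
    trace (mpow (blockDiagonal N) (n : ℝ)) = trace (N 0 ^ n) + trace (N 1 ^ n) := by
  have hs : IsSelfAdjoint (blockDiagonal N) := by
    have : (blockDiagonal N)ᴴ = blockDiagonal N := by
      rw [blockDiagonal_conjTranspose]; congr 1; ext k : 1; exact hN k
    exact this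
  have h1 : mpow (blockDiagonal N) (n : ℝ) = (blockDiagonal N) ^ n := by
    unfold mpow
    simp only [Real.rpow_natCast]
    exact cfc_pow_id _ _
  rw [h1, ← blockDiagonal_pow, trace_blockDiagonal, Fin.sum_univ_two]
  rfl

lemma sand_blk (α : ℝ) (M : Fin 2 → Matrix b b ℂ) :
    sand α (blockDiagonal M) = blockDiagonal fun k =>
      mpow (marg (blockDiagonal M)) ((1 - α) / (2 * α)) * M k *
        mpow (marg (blockDiagonal M)) ((1 - α) / (2 * α)) := by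
  unfold sand
  rw [kronecker_one, ← blockDiagonal_mul, ← blockDiagonal_mul]

lemma marg_cq (σ : Fin 2 → Matrix b b ℂ) : marg (cq σ) = (1 / 2 : ℂ) • σ 0 + (1 / 2 : ℂ) • σ 1 := by
  ext i j
  simp [marg, cq, blockDiagonal_apply, Fin.sum_univ_two]

lemma marg_tau (σ : Fin 2 → Matrix b b ℂ) (σ' : Fin 2 → Matrix c c ℂ) :
    marg (tau σ σ') = marg (cq σ) ⊗ₖ marg (cq σ') := by
  ext ⟨i, i'⟩ ⟨j, j'⟩
  simp [marg, cq, tau, blockDiagonal_apply, Fin.sum_univ_two, kroneckerMap_apply]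
  ring

lemma psd_sand {G M : Matrix b b ℂ} (hG : G.IsHermitian) (hM : M.PosSemidef) :
    (G * M * G).PosSemidef := by
  have := hM.mul_mul_conjTranspose_same G
  rwa [hG.eq] at this

lemma half_nn : (0 : ℂ) ≤ 1 / 2 := by
  rw [Complex.le_def]; norm_num

lemma psd_marg (σ : Fin 2 → Matrix b b ℂ) (hσ : ∀ k, IsDensity (σ k)) :
    (marg (cq σ)).PosSemidef := by
  rw [marg_cq]
  exact ((hσ 0).1.smul half_nn).add ((hσ 1).1.smul half_nn)

lemma trace_marg (σ : Fin 2 → Matrix b b ℂ) (hσ : ∀ k, IsDensity (σ k)) :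
    (marg (cq σ)).trace = 1 := by
  rw [marg_cq, trace_add, trace_smul, trace_smul, (hσ 0).2, (hσ 1).2]; norm_num

/-- The reduction to traces of words in two positive semidefinite matrices. -/
theorem reduce (n : ℕ) (hn : 2 ≤ n) (σ : Fin 2 → Matrix b b ℂ) (σ' : Fin 2 → Matrix c c ℂ)
    (hσ : ∀ k, IsDensity (σ k)) (hσ' : ∀ k, IsDensity (σ' k)) :
    ∃ (A B : Matrix b b ℂ) (A' B' : Matrix c c ℂ), A.PosSemidef ∧ B.PosSemidef ∧ A'.PosSemidef ∧
      B'.PosSemidef ∧ trace ((A + B) ^ n) = 1 ∧ trace ((A' + B') ^ n) = 1 ∧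
      Qtr n (cq σ) = (trace (A ^ n) + trace (B ^ n)).re ∧
      Qtr n (cq σ') = (trace (A' ^ n) + trace (B' ^ n)).re ∧
      Qtr n (tau σ σ') = (trace ((A ⊗ₖ A' + B ⊗ₖ B') ^ n) + trace ((A ⊗ₖ B' + B ⊗ₖ A') ^ n)).re := by
  set γ : ℝ := (1 - (n : ℝ)) / (2 * n) with hγ
  set G := mpow (marg (cq σ)) γ with hG
  set G' := mpow (marg (cq σ')) γ with hG'
  have hGh : G.IsHermitian := isHermitian_mpow _ _
  have hGh' : G'.IsHermitian := isHermitian_mpow _ _
  have hp : ∀ k, (G * ((1 / 2 : ℂ) • σ k) * G).PosSemidef := fun k =>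
    psd_sand hGh ((hσ k).1.smul half_nn)
  have hp' : ∀ k, (G' * ((1 / 2 : ℂ) • σ' k) * G').PosSemidef := fun k =>
    psd_sand hGh' ((hσ' k).1.smul half_nn)
  have hs : (G * ((1 / 2 : ℂ) • σ 0) * G) + (G * ((1 / 2 : ℂ) • σ 1) * G) = G * marg (cq σ) * G := by
    rw [marg_cq]; noncomm_ring
  have hs' : (G' * ((1 / 2 : ℂ) • σ' 0) * G') + (G' * ((1 / 2 : ℂ) • σ' 1) * G') =
      G' * marg (cq σ') * G' := by
    rw [marg_cq]; noncomm_ring
  refine ⟨G * ((1 / 2 : ℂ) • σ 0) * G, G * ((1 / 2 : ℂ) • σ 1) * G,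
    G' * ((1 / 2 : ℂ) • σ' 0) * G', G' * ((1 / 2 : ℂ) • σ' 1) * G', hp 0, hp 1, hp' 0, hp' 1,
    ?_, ?_, ?_, ?_, ?_⟩
  · rw [hs, hG, hγ, sand_pow n hn _ (psd_marg σ hσ), trace_marg σ hσ]
  · rw [hs', hG', hγ, sand_pow n hn _ (psd_marg σ' hσ'), trace_marg σ' hσ']
  · unfold Qtr
    have : sand n (cq σ) = blockDiagonal fun k => G * ((1 / 2 : ℂ) • σ k) * G := sand_blk _ _
    rw [this, trace_blk n _ (fun k => (hp k).1)]
  · unfold Qtr
    have : sand n (cq σ') = blockDiagonal fun k => G' * ((1 / 2 : ℂ) • σ' k) * G' := sand_blk _ _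
    rw [this, trace_blk n _ (fun k => (hp' k).1)]
  · unfold Qtr
    have hGt : mpow (marg (tau σ σ')) γ = G ⊗ₖ G' := by
      rw [marg_tau, hG, hG']
      exact cfc_kron _ _ (psd_marg σ hσ) (psd_marg σ' hσ') _
        (fun s t h1 h2 => Real.mul_rpow h1 h2)
    have hmul : ∀ (P : Matrix b b ℂ) (P' : Matrix c c ℂ),
        (G ⊗ₖ G') * ((1 / 4 : ℂ) • (P ⊗ₖ P')) * (G ⊗ₖ G') =
          (G * ((1 / 2 : ℂ) • P) * G) ⊗ₖ (G' * ((1 / 2 : ℂ) • P') * G') := by
      intro P P'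
      rw [mul_kronecker_mul, mul_kronecker_mul, smul_kronecker, kronecker_smul, smul_smul]
      norm_num
    have h2 : sand n (tau σ σ') = blockDiagonal fun k => (G ⊗ₖ G') *
        ((1 / 4 : ℂ) • ∑ x₁ : Fin 2, ∑ x₂ : Fin 2, if x₁ + x₂ = k then σ x₁ ⊗ₖ σ' x₂ else 0) *
        (G ⊗ₖ G') := by
      rw [← hGt]; exact sand_blk _ _
    have hk0 : (G ⊗ₖ G') * ((1 / 4 : ℂ) • ∑ x₁ : Fin 2, ∑ x₂ : Fin 2,
        if x₁ + x₂ = 0 then σ x₁ ⊗ₖ σ' x₂ else 0) * (G ⊗ₖ G') =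
        (G * ((1 / 2 : ℂ) • σ 0) * G) ⊗ₖ (G' * ((1 / 2 : ℂ) • σ' 0) * G') +
        (G * ((1 / 2 : ℂ) • σ 1) * G) ⊗ₖ (G' * ((1 / 2 : ℂ) • σ' 1) * G') := by
      rw [← hmul, ← hmul]
      simp [Fin.sum_univ_two, mul_add, add_mul]
    have hk1 : (G ⊗ₖ G') * ((1 / 4 : ℂ) • ∑ x₁ : Fin 2, ∑ x₂ : Fin 2,
        if x₁ + x₂ = 1 then σ x₁ ⊗ₖ σ' x₂ else 0) * (G ⊗ₖ G') =
        (G * ((1 / 2 : ℂ) • σ 0) * G) ⊗ₖ (G' * ((1 / 2 : ℂ) • σ' 1) * G') +
        (G * ((1 / 2 : ℂ) • σ 1) * G) ⊗ₖ (G' * ((1 / 2 : ℂ) • σ' 0) * G') := by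
      rw [← hmul, ← hmul]
      simp [Fin.sum_univ_two, mul_add, add_mul]
    rw [h2, trace_blk n]
    · rw [hk0, hk1]
    · intro k
      fin_cases k
      · show IsHermitian _
        simp only [Fin.zero_eta]
        rw [hk0]
        exact (((hp 0).kronecker (hp' 0)).add ((hp 1).kronecker (hp' 1))).1
      · show IsHermitian _
        simp only [Fin.mk_one]
        rw [hk1]
        exact (((hp 0).kronecker (hp' 1)).add ((hp 1).kronecker (hp' 0))).1

end H143.Ric
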