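import Pool.Agent.H143.RicW

/-! Core inequalities for traces of words in two positive semidefinite matrices. -/

open Matrix Kronecker ComplexOrder

namespace H143.Ric

set_option linter.unusedSectionVars false
set_option linter.unusedSimpArgs false

variable {b c : Type} [Fintype b] [DecidableEq b] [Fintype c] [DecidableEq c]

lemma sqrt_ex {A : Matrix b b ℂ} (hA : A.PosSemidef) : ∃ C : Matrix b b ℂ, Cᴴ = C ∧ C * C = A := by
  refine ⟨mpow A (1 / 2), (isHermitian_mpow A (1 / 2)), ?_⟩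
  have hs : IsSelfAdjoint A := hA.1
  unfold mpow
  rw [← cfc_mul _ _ A (contOn _ _) (contOn _ _)]
  rw [cfc_congr (g := fun t : ℝ => t) (fun t ht => by
    have h0 := spec_nonneg hA ht
    show t ^ (1 / 2 : ℝ) * t ^ (1 / 2 : ℝ) = t
    rw [← Real.sqrt_eq_rpow]; exact Real.mul_self_sqrt h0)]
  exact cfc_id' ℝ A

lemma single3 {A B : Matrix b b ℂ} (hA : A.PosSemidef) (hB : B.PosSemidef) :
    ∃ k s : ℝ, trace (A * A * A) + trace (B * B * B) = (k : ℂ) ∧
      trace (A * A * B) + trace (A * B * B) = (s : ℂ) ∧ 0 ≤ s ∧ s ≤ k := by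
  obtain ⟨a, e, w, ha, he, hw, ht⟩ := tr_pow hA hB
  have h30 := ht 3 0
  have h03 := ht 0 3
  have h21 := ht 2 1
  have h12 := ht 1 2
  rw [show A ^ 3 * B ^ 0 = A * A * A by simp [pow_succ]] at h30
  rw [show A ^ 0 * B ^ 3 = B * B * B by simp [pow_succ]] at h03
  rw [show A ^ 2 * B ^ 1 = A * A * B by simp [pow_succ]] at h21
  rw [show A ^ 1 * B ^ 2 = A * B * B by simp [pow_succ, mul_assoc]] at h12
  refine ⟨(∑ i, ∑ j, a i ^ 3 * e j ^ 0 * w i j) + (∑ i, ∑ j, a i ^ 0 * e j ^ 3 * w i j),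
    (∑ i, ∑ j, a i ^ 2 * e j ^ 1 * w i j) + (∑ i, ∑ j, a i ^ 1 * e j ^ 2 * w i j), ?_, ?_, ?_, ?_⟩
  · rw [h30, h03]; push_cast; rfl
  · rw [h21, h12]; push_cast; rfl
  · exact add_nonneg
      (Finset.sum_nonneg fun i _ => Finset.sum_nonneg fun j _ =>
        mul_nonneg (mul_nonneg (pow_nonneg (ha i) _) (pow_nonneg (he j) _)) (hw i j))
      (Finset.sum_nonneg fun i _ => Finset.sum_nonneg fun j _ =>
        mul_nonneg (mul_nonneg (pow_nonneg (ha i) _) (pow_nonneg (he j) _)) (hw i j))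
  · simp only [← Finset.sum_add_distrib]
    refine Finset.sum_le_sum fun i _ => Finset.sum_le_sum fun j _ => ?_
    have : 0 ≤ (a i + e j) * (a i - e j) ^ 2 * w i j :=
      mul_nonneg (mul_nonneg (add_nonneg (ha i) (he j)) (sq_nonneg _)) (hw i j)
    nlinarith [this]

lemma single4 {A B : Matrix b b ℂ} (hA : A.PosSemidef) (hB : B.PosSemidef) :
    ∃ k x y z : ℝ, trace (A * A * A * A) + trace (B * B * B * B) = (k : ℂ) ∧
      trace (A * A * A * B) + trace (A * B * B * B) = (x : ℂ) ∧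
      trace (A * A * B * B) = (y : ℂ) ∧ trace (A * B * A * B) = (z : ℂ) ∧
      x ≤ k ∧ 2 * y ≤ x ∧ z ≤ y ∧ -y ≤ z ∧ 0 ≤ y := by
  obtain ⟨a, e, w, ha, he, hw, ht⟩ := tr_pow hA hB
  have h40 := ht 4 0
  have h04 := ht 0 4
  have h31 := ht 3 1
  have h13 := ht 1 3
  have h22 := ht 2 2
  rw [show A ^ 4 * B ^ 0 = A * A * A * A by simp [pow_succ]] at h40
  rw [show A ^ 0 * B ^ 4 = B * B * B * B by simp [pow_succ]] at h04
  rw [show A ^ 3 * B ^ 1 = A * A * A * B by simp [pow_succ]] at h31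
  rw [show A ^ 1 * B ^ 3 = A * B * B * B by simp [pow_succ, mul_assoc]] at h13
  rw [show A ^ 2 * B ^ 2 = A * A * B * B by simp [pow_succ, mul_assoc]] at h22
  obtain ⟨r, hr, hr'⟩ := nn (A * B - B * A)
  obtain ⟨q, hq, hq'⟩ := nn (A * B + B * A)
  have hAH : Aᴴ = A := hA.1
  have hBH : Bᴴ = B := hB.1
  have e1 : trace ((A * B - B * A)ᴴ * (A * B - B * A)) =
      2 * trace (A * A * B * B) - 2 * trace (A * B * A * B) := by
    rw [conjTranspose_sub, conjTranspose_mul, conjTranspose_mul, hAH, hBH]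
    have : (B * A - A * B) * (A * B - B * A) = B * A * A * B - B * A * B * A - A * B * A * B +
        A * B * B * A := by noncomm_ring
    rw [this, trace_add, trace_sub, trace_sub, cy_BAAB A B, cy_BABA A B, cy_ABBA A B]
    ring
  have e2 : trace ((A * B + B * A)ᴴ * (A * B + B * A)) =
      2 * trace (A * A * B * B) + 2 * trace (A * B * A * B) := by
    rw [conjTranspose_add, conjTranspose_mul, conjTranspose_mul, hAH, hBH]
    have : (B * A + A * B) * (A * B + B * A) = B * A * A * B + B * A * B * A + A * B * A * B +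
        A * B * B * A := by noncomm_ring
    rw [this, trace_add, trace_add, trace_add, cy_BAAB A B, cy_BABA A B, cy_ABBA A B]
    ring
  rw [hr'] at e1
  rw [hq'] at e2
  set y : ℝ := ∑ i, ∑ j, a i ^ 2 * e j ^ 2 * w i j with hy
  have hz : trace (A * B * A * B) = ((y - r / 2 : ℝ) : ℂ) := by
    rw [h22] at e1
    push_cast
    linear_combination (1 / 2 : ℂ) * e1
  have hqr : q = 4 * y - r := by
    rw [h22, hz] at e2
    have : (q : ℂ) = ((4 * y - r : ℝ) : ℂ) := by rw [e2]; push_cast; ring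
    exact_mod_cast this
  refine ⟨(∑ i, ∑ j, a i ^ 4 * e j ^ 0 * w i j) + (∑ i, ∑ j, a i ^ 0 * e j ^ 4 * w i j),
    (∑ i, ∑ j, a i ^ 3 * e j ^ 1 * w i j) + (∑ i, ∑ j, a i ^ 1 * e j ^ 3 * w i j),
    y, y - r / 2, ?_, ?_, h22, hz, ?_, ?_, ?_, ?_, ?_⟩
  · rw [h40, h04]; push_cast; rfl
  · rw [h31, h13]; push_cast; rfl
  · simp only [← Finset.sum_add_distrib]
    refine Finset.sum_le_sum fun i _ => Finset.sum_le_sum fun j _ => ?_
    have : 0 ≤ (a i ^ 2 + a i * e j + e j ^ 2) * (a i - e j) ^ 2 * w i j :=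
      mul_nonneg (mul_nonneg (by have := ha i; have := he j; positivity) (sq_nonneg _)) (hw i j)
    nlinarith [this]
  · rw [hy, Finset.mul_sum]
    simp only [← Finset.sum_add_distrib, Finset.mul_sum]
    refine Finset.sum_le_sum fun i _ => Finset.sum_le_sum fun j _ => ?_
    have : 0 ≤ (a i * e j) * (a i - e j) ^ 2 * w i j :=
      mul_nonneg (mul_nonneg (mul_nonneg (ha i) (he j)) (sq_nonneg _)) (hw i j)
    nlinarith [this]
  · linarith
  · linarith
  · exact Finset.sum_nonneg fun i _ => Finset.sum_nonneg fun j _ =>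
        mul_nonneg (mul_nonneg (pow_nonneg (ha i) _) (pow_nonneg (he j) _)) (hw i j)

lemma single5 {A B : Matrix b b ℂ} (hA : A.PosSemidef) (hB : B.PosSemidef) :
    ∃ k x y z : ℝ, trace (A * A * A * A * A) + trace (B * B * B * B * B) = (k : ℂ) ∧
      trace (A * A * A * A * B) + trace (A * B * B * B * B) = (x : ℂ) ∧
      trace (A * A * A * B * B) + trace (A * A * B * B * B) = (y : ℂ) ∧
      trace (A * A * B * A * B) + trace (A * B * A * B * B) = (z : ℂ) ∧
      x ≤ k ∧ y ≤ x ∧ z ≤ y ∧ 0 ≤ z := by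
  obtain ⟨a, e, w, ha, he, hw, ht⟩ := tr_pow hA hB
  have h50 := ht 5 0
  have h05 := ht 0 5
  have h41 := ht 4 1
  have h14 := ht 1 4
  have h32 := ht 3 2
  have h23 := ht 2 3
  rw [show A ^ 5 * B ^ 0 = A * A * A * A * A by simp [pow_succ]] at h50
  rw [show A ^ 0 * B ^ 5 = B * B * B * B * B by simp [pow_succ]] at h05
  rw [show A ^ 4 * B ^ 1 = A * A * A * A * B by simp [pow_succ]] at h41
  rw [show A ^ 1 * B ^ 4 = A * B * B * B * B by simp [pow_succ, mul_assoc]] at h14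
  rw [show A ^ 3 * B ^ 2 = A * A * A * B * B by simp [pow_succ, mul_assoc]] at h32
  rw [show A ^ 2 * B ^ 3 = A * A * B * B * B by simp [pow_succ, mul_assoc]] at h23
  obtain ⟨C, hC, hCC⟩ := sqrt_ex hA
  obtain ⟨D, hD, hDD⟩ := sqrt_ex hB
  have hAH : Aᴴ = A := hA.1
  have hBH : Bᴴ = B := hB.1
  obtain ⟨r, hr, hr'⟩ := nn ((A * B - B * A) * C)
  obtain ⟨r2, hr2, hr2'⟩ := nn ((A * B - B * A) * D)
  obtain ⟨q, hq, hq'⟩ := nn (C * B * A)
  obtain ⟨q2, hq2, hq2'⟩ := nn (D * A * B)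
  have e1 : trace (((A * B - B * A) * C)ᴴ * ((A * B - B * A) * C)) =
      trace (A * A * A * B * B) - trace (A * A * B * A * B) := by
    rw [conjTranspose_mul, conjTranspose_sub, conjTranspose_mul, conjTranspose_mul, hAH, hBH, hC]
    have h1 : C * (B * A - A * B) * ((A * B - B * A) * C) =
        C * ((B * A - A * B) * (A * B - B * A) * C) := by simp only [mul_assoc]
    have h2 : (B * A - A * B) * (A * B - B * A) * C * C =
        B * A * A * B * A - B * A * B * A * A - A * B * A * B * A + A * B * B * A * A := by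
      rw [mul_assoc, hCC]; noncomm_ring
    rw [h1, trace_mul_comm, h2, trace_add, trace_sub, trace_sub, cy_BAABA A B, cy_BABAA A B,
      cy_ABABA A B, cy_ABBAA A B]
    ring
  have e2 : trace (((A * B - B * A) * D)ᴴ * ((A * B - B * A) * D)) =
      trace (A * A * B * B * B) - trace (A * B * A * B * B) := by
    rw [conjTranspose_mul, conjTranspose_sub, conjTranspose_mul, conjTranspose_mul, hAH, hBH, hD]
    have h1 : D * (B * A - A * B) * ((A * B - B * A) * D) =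
        D * ((B * A - A * B) * (A * B - B * A) * D) := by simp only [mul_assoc]
    have h2 : (B * A - A * B) * (A * B - B * A) * D * D =
        B * A * A * B * B - B * A * B * A * B - A * B * A * B * B + A * B * B * A * B := by
      rw [mul_assoc, hDD]; noncomm_ring
    rw [h1, trace_mul_comm, h2, trace_add, trace_sub, trace_sub, cy_BAABB A B, cy_BABAB A B,
      cy_ABBAB A B]
    ring
  have e3 : trace ((C * B * A)ᴴ * (C * B * A)) = trace (A * A * B * A * B) := by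
    rw [conjTranspose_mul, conjTranspose_mul, hAH, hBH, hC]
    have h1 : A * (B * C) * (C * B * A) = A * B * A * B * A := by
      rw [← hCC]; simp only [mul_assoc]
    rw [h1, cy_ABABA A B]
  have e4 : trace ((D * A * B)ᴴ * (D * A * B)) = trace (A * B * A * B * B) := by
    rw [conjTranspose_mul, conjTranspose_mul, hAH, hBH, hD]
    have h1 : B * (A * D) * (D * A * B) = B * A * B * A * B := by
      rw [← hDD]; simp only [mul_assoc]
    rw [h1, cy_BABAB A B]
  rw [hr'] at e1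
  rw [hr2'] at e2
  rw [hq'] at e3
  rw [hq2'] at e4
  set y : ℝ := (∑ i, ∑ j, a i ^ 3 * e j ^ 2 * w i j) + (∑ i, ∑ j, a i ^ 2 * e j ^ 3 * w i j) with hy
  have hy' : trace (A * A * A * B * B) + trace (A * A * B * B * B) = (y : ℂ) := by
    rw [h32, h23, hy]; push_cast; rfl
  have hz : trace (A * A * B * A * B) + trace (A * B * A * B * B) = ((q + q2 : ℝ) : ℂ) := by
    rw [← e3, ← e4]; push_cast; rfl
  have hyz : r + r2 = y - (q + q2) := by
    have : ((r + r2 : ℝ) : ℂ) = ((y - (q + q2) : ℝ) : ℂ) := by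
      push_cast
      rw [e1, e2, ← hy', e3, e4]; ring
    exact_mod_cast this
  refine ⟨(∑ i, ∑ j, a i ^ 5 * e j ^ 0 * w i j) + (∑ i, ∑ j, a i ^ 0 * e j ^ 5 * w i j),
    (∑ i, ∑ j, a i ^ 4 * e j ^ 1 * w i j) + (∑ i, ∑ j, a i ^ 1 * e j ^ 4 * w i j),
    y, q + q2, ?_, ?_, hy', hz, ?_, ?_, ?_, ?_⟩
  · rw [h50, h05]; push_cast; rfl
  · rw [h41, h14]; push_cast; rfl
  · simp only [← Finset.sum_add_distrib]
    refine Finset.sum_le_sum fun i _ => Finset.sum_le_sum fun j _ => ?_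
    have : 0 ≤ ((a i + e j) * (a i ^ 2 + e j ^ 2)) * (a i - e j) ^ 2 * w i j :=
      mul_nonneg (mul_nonneg (by have := ha i; have := he j; positivity) (sq_nonneg _)) (hw i j)
    nlinarith [this]
  · rw [hy]
    simp only [← Finset.sum_add_distrib]
    refine Finset.sum_le_sum fun i _ => Finset.sum_le_sum fun j _ => ?_
    have : 0 ≤ (a i * e j * (a i + e j)) * (a i - e j) ^ 2 * w i j :=
      mul_nonneg (mul_nonneg (by have := ha i; have := he j; positivity) (sq_nonneg _)) (hw i j)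
    nlinarith [this]
  · linarith
  · linarith

lemma core3 {A B : Matrix b b ℂ} {A' B' : Matrix c c ℂ} (hA : A.PosSemidef) (hB : B.PosSemidef)
    (hA' : A'.PosSemidef) (hB' : B'.PosSemidef) (h : trace ((A + B) ^ 3) = 1)
    (h' : trace ((A' + B') ^ 3) = 1) :
    ∃ k k' : ℝ, (trace (A ^ 3) + trace (B ^ 3)).re = k ∧ (trace (A' ^ 3) + trace (B' ^ 3)).re = k' ∧
      (trace ((A ⊗ₖ A' + B ⊗ₖ B') ^ 3) + trace ((A ⊗ₖ B' + B ⊗ₖ A') ^ 3)).re =
        k * k' + (1 - k) * (1 - k') / 3 ∧ 1 / 4 ≤ k ∧ k ≤ 1 ∧ 1 / 4 ≤ k' ∧ k' ≤ 1 := by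
  obtain ⟨k, s, hk, hs, hs0, hsk⟩ := single3 hA hB
  obtain ⟨k', s', hk', hs', hs0', hsk'⟩ := single3 hA' hB'
  have h1 : k + 3 * s = 1 := by
    rw [ex3s] at h
    have : ((k + 3 * s : ℝ) : ℂ) = 1 := by
      push_cast; rw [← hk, ← hs, ← h]; ring
    exact_mod_cast this
  have h1' : k' + 3 * s' = 1 := by
    rw [ex3s] at h'
    have : ((k' + 3 * s' : ℝ) : ℂ) = 1 := by
      push_cast; rw [← hk', ← hs', ← h']; ring
    exact_mod_cast this
  have h2 : trace ((A ⊗ₖ A' + B ⊗ₖ B') ^ 3) + trace ((A ⊗ₖ B' + B ⊗ₖ A') ^ 3) =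
      ((k * k' + 3 * (s * s') : ℝ) : ℂ) := by
    rw [ex3a, ex3a, cy_BBA A' B', cy_BAA A' B']
    push_cast
    rw [← hk, ← hs, ← hk', ← hs']
    ring
  refine ⟨k, k', ?_, ?_, ?_, by linarith, by linarith, by linarith, by linarith⟩
  · rw [show A ^ 3 = A * A * A by simp [pow_succ], show B ^ 3 = B * B * B by simp [pow_succ], hk]
    simp
  · rw [show A' ^ 3 = A' * A' * A' by simp [pow_succ],
      show B' ^ 3 = B' * B' * B' by simp [pow_succ], hk']
    simp
  · rw [h2, Complex.ofReal_re]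
    have e1 : s = (1 - k) / 3 := by linarith
    have e2 : s' = (1 - k') / 3 := by linarith
    rw [e1, e2]; ring

lemma core4 {A B : Matrix b b ℂ} {A' B' : Matrix c c ℂ} (hA : A.PosSemidef) (hB : B.PosSemidef)
    (hA' : A'.PosSemidef) (hB' : B'.PosSemidef) (h : trace ((A + B) ^ 4) = 1)
    (h' : trace ((A' + B') ^ 4) = 1) :
    ∃ k k' : ℝ, (trace (A ^ 4) + trace (B ^ 4)).re = k ∧ (trace (A' ^ 4) + trace (B' ^ 4)).re = k' ∧
      k * k' + (1 - k) * (1 - k') / 7 ≤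
      (trace ((A ⊗ₖ A' + B ⊗ₖ B') ^ 4) + trace ((A ⊗ₖ B' + B ⊗ₖ A') ^ 4)).re ∧
       1 / 8 ≤ k ∧ k ≤ 1 ∧ 1 / 8 ≤ k' ∧ k' ≤ 1 := by
  obtain ⟨k, x, y, z, hk, hx, hy, hz, i1, i2, i3, i4, i5⟩ := single4 hA hB
  obtain ⟨k', x', y', z', hk', hx', hy', hz', i1', i2', i3', i4', i5'⟩ := single4 hA' hB'
  have h1 : k + 4 * x + 4 * y + 2 * z = 1 := by
    rw [ex4s] at h
    have : ((k + 4 * x + 4 * y + 2 * z : ℝ) : ℂ) = 1 := by
      push_cast; rw [← hk, ← hx, ← hy, ← hz, ← h]; ring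
    exact_mod_cast this
  have h1' : k' + 4 * x' + 4 * y' + 2 * z' = 1 := by
    rw [ex4s] at h'
    have : ((k' + 4 * x' + 4 * y' + 2 * z' : ℝ) : ℂ) = 1 := by
      push_cast; rw [← hk', ← hx', ← hy', ← hz', ← h']; ring
    exact_mod_cast this
  have h2 : trace ((A ⊗ₖ A' + B ⊗ₖ B') ^ 4) + trace ((A ⊗ₖ B' + B ⊗ₖ A') ^ 4) =
      ((k * k' + 4 * (x * x') + 8 * (y * y') + 4 * (z * z') : ℝ) : ℂ) := by
    rw [ex4a, ex4a, cy_BBBA A' B', cy_BBAA A' B', cy_BABA A' B', cy_BAAA A' B']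
    push_cast
    rw [← hk, ← hx, ← hy, ← hz, ← hk', ← hx', ← hy', ← hz']
    ring
  refine ⟨k, k', ?_, ?_, ?_, by linarith, by linarith, by linarith, by linarith⟩
  · rw [show A ^ 4 = A * A * A * A by simp [pow_succ], show B ^ 4 = B * B * B * B by simp [pow_succ],
      hk]
    simp
  · rw [show A' ^ 4 = A' * A' * A' * A' by simp [pow_succ],
      show B' ^ 4 = B' * B' * B' * B' by simp [pow_succ], hk']
    simp
  · rw [h2, Complex.ofReal_re]
    have e1 : 1 - k = 4 * x + 4 * y + 2 * z := by linarith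
    have e2 : 1 - k' = 4 * x' + 4 * y' + 2 * z' := by linarith
    rw [e1, e2]
    have p1 : 0 ≤ (x - 2 * y) * (x' - 2 * y') := mul_nonneg (by linarith) (by linarith)
    have p2 : 0 ≤ (x - 2 * z) * (x' - 2 * z') := mul_nonneg (by linarith) (by linarith)
    have p3 : 0 ≤ (y - z) * (y' - z') := mul_nonneg (by linarith) (by linarith)
    nlinarith [p1, p2, p3]

lemma core5 {A B : Matrix b b ℂ} {A' B' : Matrix c c ℂ} (hA : A.PosSemidef) (hB : B.PosSemidef)
    (hA' : A'.PosSemidef) (hB' : B'.PosSemidef) (h : trace ((A + B) ^ 5) = 1)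
    (h' : trace ((A' + B') ^ 5) = 1) :
    ∃ k k' : ℝ, (trace (A ^ 5) + trace (B ^ 5)).re = k ∧ (trace (A' ^ 5) + trace (B' ^ 5)).re = k' ∧
      k * k' + (1 - k) * (1 - k') / 15 ≤
      (trace ((A ⊗ₖ A' + B ⊗ₖ B') ^ 5) + trace ((A ⊗ₖ B' + B ⊗ₖ A') ^ 5)).re ∧
       1 / 16 ≤ k ∧ k ≤ 1 ∧ 1 / 16 ≤ k' ∧ k' ≤ 1 := by
  obtain ⟨k, x, y, z, hk, hx, hy, hz, i1, i2, i3, i4⟩ := single5 hA hB
  obtain ⟨k', x', y', z', hk', hx', hy', hz', i1', i2', i3', i4'⟩ := single5 hA' hB'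
  have h1 : k + 5 * x + 5 * y + 5 * z = 1 := by
    rw [ex5s] at h
    have : ((k + 5 * x + 5 * y + 5 * z : ℝ) : ℂ) = 1 := by
      push_cast; rw [← hk, ← hx, ← hy, ← hz, ← h]; ring
    exact_mod_cast this
  have h1' : k' + 5 * x' + 5 * y' + 5 * z' = 1 := by
    rw [ex5s] at h'
    have : ((k' + 5 * x' + 5 * y' + 5 * z' : ℝ) : ℂ) = 1 := by
      push_cast; rw [← hk', ← hx', ← hy', ← hz', ← h']; ring
    exact_mod_cast this
  have h2 : trace ((A ⊗ₖ A' + B ⊗ₖ B') ^ 5) + trace ((A ⊗ₖ B' + B ⊗ₖ A') ^ 5) =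
      ((k * k' + 5 * (x * x') + 5 * (y * y') + 5 * (z * z') : ℝ) : ℂ) := by
    rw [ex5a, ex5a, cy_BBBBA A' B', cy_BBBAA A' B', cy_BBABA A' B', cy_BBAAA A' B', cy_BABAA A' B',
      cy_BAAAA A' B']
    push_cast
    rw [← hk, ← hx, ← hy, ← hz, ← hk', ← hx', ← hy', ← hz']
    ring
  refine ⟨k, k', ?_, ?_, ?_, by linarith, by linarith, by linarith, by linarith⟩
  · rw [show A ^ 5 = A * A * A * A * A by simp [pow_succ],
      show B ^ 5 = B * B * B * B * B by simp [pow_succ], hk]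
    simp
  · rw [show A' ^ 5 = A' * A' * A' * A' * A' by simp [pow_succ],
      show B' ^ 5 = B' * B' * B' * B' * B' by simp [pow_succ], hk']
    simp
  · rw [h2, Complex.ofReal_re]
    have e1 : 1 - k = 5 * x + 5 * y + 5 * z := by linarith
    have e2 : 1 - k' = 5 * x' + 5 * y' + 5 * z' := by linarith
    rw [e1, e2]
    have p1 : 0 ≤ (x - y) * (x' - y') := mul_nonneg (by linarith) (by linarith)
    have p2 : 0 ≤ (x - z) * (x' - z') := mul_nonneg (by linarith) (by linarith)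
    have p3 : 0 ≤ (y - z) * (y' - z') := mul_nonneg (by linarith) (by linarith)
    nlinarith [p1, p2, p3]

end H143.Ric
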