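import Pool.Agent.H143.RicC

/-! All integer orders, for a state and its transpose. -/

open Matrix Kronecker ComplexOrder

namespace H143.Ric

set_option linter.unusedSectionVars false

variable {b c : Type} [Fintype b] [DecidableEq b] [Fintype c] [DecidableEq c]

/-- Words of length `n` in two letters. -/
def Wd : ℕ → Type
  | 0 => Unit
  | n + 1 => Bool × Wd n

instance instFintypeWd : (n : ℕ) → Fintype (Wd n)
  | 0 => inferInstanceAs (Fintype Unit)
  | n + 1 => by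
    haveI := instFintypeWd n
    exact inferInstanceAs (Fintype (Bool × Wd n))

instance instDecWd : (n : ℕ) → DecidableEq (Wd n)
  | 0 => inferInstanceAs (DecidableEq Unit)
  | n + 1 => by
    haveI := instDecWd n
    exact inferInstanceAs (DecidableEq (Bool × Wd n))

/-- The constant word. -/
def cw (x : Bool) : (n : ℕ) → Wd n
  | 0 => ()
  | n + 1 => (x, cw x n)

/-- The complementary word. -/
def co : (n : ℕ) → Wd n → Wd n
  | 0, _ => ()
  | n + 1, (x, w) => (!x, co n w)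

/-- The product along a word. -/
def W (A B : Matrix b b ℂ) : (n : ℕ) → Wd n → Matrix b b ℂ
  | 0, _ => 1
  | n + 1, (x, w) => (if x then A else B) * W A B n w

lemma co_co : ∀ (n : ℕ) (w : Wd n), co n (co n w) = w
  | 0, () => rfl
  | n + 1, (x, w) => by simp [co, co_co n w]

lemma co_cw (x : Bool) : ∀ n : ℕ, co n (cw x n) = cw (!x) n
  | 0 => rfl
  | n + 1 => by simp [co, cw, co_cw x n]

lemma card_Wd : ∀ n : ℕ, Fintype.card (Wd n) = 2 ^ n
  | 0 => rfl
  | n + 1 => by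
    have : Fintype.card (Wd (n + 1)) = Fintype.card (Bool × Wd n) := rfl
    rw [this, Fintype.card_prod, card_Wd n, Fintype.card_bool, pow_succ]; ring

lemma pow_W (A B : Matrix b b ℂ) : ∀ n : ℕ, (A + B) ^ n = ∑ w : Wd n, W A B n w
  | 0 => by
    have h : ∑ w : Wd 0, W A B 0 w = ∑ w : Unit, (1 : Matrix b b ℂ) := rfl
    rw [h]; simp
  | n + 1 => by
    have h : ∑ w : Wd (n + 1), W A B (n + 1) w = ∑ p : Bool × Wd n, (if p.1 then A else B) * W A B n p.2 :=
      rfl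
    rw [h, Fintype.sum_prod_type]
    simp only [Fintype.sum_bool, if_true]
    rw [pow_succ', pow_W A B n, add_mul, Finset.mul_sum, Finset.mul_sum]
    simp

lemma W_kron (A B : Matrix b b ℂ) (A' B' : Matrix c c ℂ) : ∀ (n : ℕ) (w : Wd n),
    W (A ⊗ₖ A') (B ⊗ₖ B') n w = W A B n w ⊗ₖ W A' B' n w
  | 0, () => by simp [W]
  | n + 1, (x, w) => by
    simp only [W]
    rw [W_kron A B A' B' n w, mul_kronecker_mul]
    cases x <;> simp

lemma W_co (A B : Matrix b b ℂ) : ∀ (n : ℕ) (w : Wd n), W B A n w = W A B n (co n w)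
  | 0, () => rfl
  | n + 1, (x, w) => by
    simp only [W, co]
    rw [W_co A B n w]
    cases x <;> simp

lemma W_cw (A B : Matrix b b ℂ) : ∀ n : ℕ, W A B n (cw true n) = A ^ n ∧ W A B n (cw false n) = B ^ n
  | 0 => by simp [W]
  | n + 1 => by
    have := W_cw A B n
    constructor
    · simp [W, cw, this.1, pow_succ']
    · simp [W, cw, this.2, pow_succ']

lemma W_map (A B : Matrix b b ℂ) : ∀ (n : ℕ) (w : Wd n),
    W (A.map (starRingEnd ℂ)) (B.map (starRingEnd ℂ)) n w = (W A B n w).map (starRingEnd ℂ)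
  | 0, () => by simp [W, Matrix.map_one]
  | n + 1, (x, w) => by
    simp only [W]
    rw [W_map A B n w, Matrix.map_mul]
    cases x <;> simp

lemma trace_map_star (M : Matrix b b ℂ) : trace (M.map (starRingEnd ℂ)) = star (trace M) := by
  simp [trace, Matrix.map_apply]

lemma tr_psd_real {A : Matrix b b ℂ} (hA : A.PosSemidef) (n : ℕ) :
    ∃ r : ℝ, 0 ≤ r ∧ trace (A ^ n) = (r : ℂ) := by
  have h := (hA.pow n).trace_nonneg
  rw [Complex.le_def] at h
  refine ⟨(trace (A ^ n)).re, h.1, ?_⟩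
  apply Complex.ext
  · simp
  · simpa using h.2.symm

lemma core_n {A B : Matrix b b ℂ} (n : ℕ) (hn : 2 ≤ n) (hA : A.PosSemidef) (hB : B.PosSemidef)
    (h : trace ((A + B) ^ n) = 1) :
    ∃ k : ℝ, (trace (A ^ n) + trace (B ^ n)).re = k ∧ 
      k * k + (1 - k) * (1 - k) / (2 ^ (n - 1) - 1) ≤
      (trace ((A ⊗ₖ Aᵀ + B ⊗ₖ Bᵀ) ^ n) + trace ((A ⊗ₖ Bᵀ + B ⊗ₖ Aᵀ) ^ n)).re := by
  classical
  obtain ⟨r, hr, hr'⟩ := tr_psd_real hA n
  obtain ⟨s, hs, hs'⟩ := tr_psd_real hB n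
  have hAt : Aᵀ = A.map (starRingEnd ℂ) := by
    have h1 : Aᴴ = A := hA.1
    conv_lhs => rw [← h1]
    ext i j; simp
  have hBt : Bᵀ = B.map (starRingEnd ℂ) := by
    have h1 : Bᴴ = B := hB.1
    conv_lhs => rw [← h1]
    ext i j; simp
  set T : Wd n → ℂ := fun w => trace (W A B n w) with hT
  have e1 : trace ((A ⊗ₖ Aᵀ + B ⊗ₖ Bᵀ) ^ n) = ∑ w, T w * star (T w) := by
    rw [pow_W, trace_sum]
    refine Finset.sum_congr rfl fun w _ => ?_
    rw [W_kron, trace_kronecker, hAt, hBt, W_map, trace_map_star]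
  have e2 : trace ((A ⊗ₖ Bᵀ + B ⊗ₖ Aᵀ) ^ n) = ∑ w, T w * star (T (co n w)) := by
    rw [pow_W, trace_sum]
    refine Finset.sum_congr rfl fun w _ => ?_
    rw [W_kron, trace_kronecker, hAt, hBt,
      W_co (A.map (starRingEnd ℂ)) (B.map (starRingEnd ℂ)) n w, W_map, trace_map_star]
  have hbij : ∀ F : Wd n → ℝ, ∑ w, F (co n w) = ∑ w, F w := fun F =>
    Fintype.sum_equiv ⟨co n, co n, co_co n, co_co n⟩ _ _ (fun _ => rfl)
  have e3 : (trace ((A ⊗ₖ Aᵀ + B ⊗ₖ Bᵀ) ^ n) + trace ((A ⊗ₖ Bᵀ + B ⊗ₖ Aᵀ) ^ n)).re =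
      1 / 2 * ∑ w, Complex.normSq (T w + T (co n w)) := by
    rw [e1, e2, Complex.add_re, Complex.re_sum, Complex.re_sum]
    have h1 : ∀ w, Complex.normSq (T w + T (co n w)) =
        Complex.normSq (T w) + Complex.normSq (T (co n w)) + 2 * (T w * star (T (co n w))).re := by
      intro w
      rw [Complex.normSq_add]; rfl
    have h2 : ∀ w, (T w * star (T w)).re = Complex.normSq (T w) := by
      intro w
      have := Complex.mul_conj (T w)
      rw [show star (T w) = (starRingEnd ℂ) (T w) from rfl, this, Complex.ofReal_re]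
    simp only [h1, h2, Finset.sum_add_distrib, hbij (fun w => Complex.normSq (T w)),
      ← Finset.mul_sum]
    ring
  set t := cw true n with ht
  set f := cw false n with hf
  have htf : t ≠ f := by
    rw [ht, hf]
    obtain ⟨m, rfl⟩ : ∃ m, n = m + 1 := ⟨n - 1, by omega⟩
    intro h
    have := congrArg (fun p : Bool × Wd m => p.1) h
    simp [cw] at this
  have hcot : co n t = f := by rw [ht, co_cw]; rfl
  have hcof : co n f = t := by rw [hf, co_cw]; rfl
  have hTt : T t = r := by rw [hT]; simp only []; rw [(W_cw A B n).1, hr']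
  have hTf : T f = s := by rw [hT]; simp only []; rw [(W_cw A B n).2, hs']
  set R : Finset (Wd n) := (Finset.univ.erase t).erase f with hR
  have hsplit : ∀ F : Wd n → ℝ, ∑ w, F w = F t + F f + ∑ w ∈ R, F w := by
    intro F
    rw [← Finset.add_sum_erase Finset.univ F (Finset.mem_univ t), hR,
      ← Finset.add_sum_erase (Finset.univ.erase t) F
        (Finset.mem_erase.2 ⟨htf.symm, Finset.mem_univ f⟩)]
    ring
  have hcard : (R.card : ℝ) = 2 ^ n - 2 := by
    rw [hR, Finset.card_erase_of_mem (Finset.mem_erase.2 ⟨htf.symm, Finset.mem_univ f⟩),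
      Finset.card_erase_of_mem (Finset.mem_univ t), Finset.card_univ, card_Wd]
    have : 4 ≤ 2 ^ n := by
      calc 4 = 2 ^ 2 := by norm_num
        _ ≤ 2 ^ n := Nat.pow_le_pow_right (by norm_num) hn
    rw [Nat.sub_sub, Nat.cast_sub (by omega)]; push_cast; ring
  have hsumT : ∑ w, (T w + T (co n w)).re = 2 := by
    have h1 : ∑ w, T w = 1 := by rw [← h, pow_W, trace_sum]
    have h2 : ∑ w, (T w).re = 1 := by
      rw [← Complex.re_sum, h1]; rfl
    simp only [Complex.add_re, Finset.sum_add_distrib, hbij (fun w => (T w).re), h2]; norm_num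
  have hsumR : ∑ w ∈ R, (T w + T (co n w)).re = 2 * (1 - (r + s)) := by
    have := hsplit (fun w => (T w + T (co n w)).re)
    rw [hsumT] at this
    simp only [hcot, hcof, hTt, hTf, Complex.add_re, Complex.ofReal_re] at this
    simp only [Complex.add_re]
    linarith
  have hCS : (∑ w ∈ R, (T w + T (co n w)).re) ^ 2 ≤ R.card * ∑ w ∈ R, ((T w + T (co n w)).re) ^ 2 :=
    sq_sum_le_card_mul_sum_sq
  have hle : ∑ w ∈ R, ((T w + T (co n w)).re) ^ 2 ≤ ∑ w ∈ R, Complex.normSq (T w + T (co n w)) := by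
    refine Finset.sum_le_sum fun w _ => ?_
    rw [Complex.normSq_apply]
    nlinarith [mul_self_nonneg (T w + T (co n w)).im]
  refine ⟨r + s, ?_, ?_⟩
  · rw [hr', hs']; simp
  · rw [e3, hsplit (fun w => Complex.normSq (T w + T (co n w)))]
    simp only [hcot, hcof, hTt, hTf]
    have hp : (2 : ℝ) ^ n = 2 * 2 ^ (n - 1) := by
      rw [← pow_succ']; congr 1; omega
    have h2 : (2 : ℝ) ≤ 2 ^ (n - 1) := by
      calc (2 : ℝ) = 2 ^ 1 := by norm_num
        _ ≤ 2 ^ (n - 1) := pow_le_pow_right₀ (by norm_num) (by omega)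
    rw [hsumR, hcard, hp] at hCS
    set m : ℝ := 2 ^ (n - 1) - 1 with hm
    have hmpos : 0 < m := by linarith
    set Z := ∑ w ∈ R, Complex.normSq (T w + T (co n w)) with hZ
    have h3 : (2 * (1 - (r + s))) ^ 2 ≤ 2 * m * Z := by
      calc (2 * (1 - (r + s))) ^ 2 ≤ (2 * 2 ^ (n - 1) - 2) * _ := hCS
        _ = 2 * m * _ := by rw [hm]; ring
        _ ≤ 2 * m * Z := mul_le_mul_of_nonneg_left hle (by linarith)
    have h4 : (1 - (r + s)) * (1 - (r + s)) / m ≤ Z / 2 := by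
      rw [div_le_iff₀ hmpos]; nlinarith
    have h5 : Complex.normSq ((r : ℂ) + s) = (r + s) * (r + s) := by
      rw [← Complex.ofReal_add, Complex.normSq_ofReal]
    have h6 : Complex.normSq ((s : ℂ) + r) = (r + s) * (r + s) := by
      rw [← Complex.ofReal_add, Complex.normSq_ofReal]; ring
    rw [h5, h6]
    linarith

lemma aeval_transpose (A : Matrix b b ℂ) (q : Polynomial ℝ) :
    Polynomial.aeval Aᵀ q = (Polynomial.aeval A q)ᵀ := by
  simp only [Polynomial.aeval_eq_sum_range, transpose_sum, transpose_smul, transpose_pow]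

lemma cfc_transpose (A : Matrix b b ℂ) (hA : A.IsHermitian) (f : ℝ → ℝ) :
    cfc f Aᵀ = (cfc f A)ᵀ := by
  classical
  have hAt : Aᵀ.IsHermitian := hA.transpose
  have hf1 : (spectrum ℝ A).Finite := Matrix.finite_real_spectrum
  have hf2 : (spectrum ℝ Aᵀ).Finite := Matrix.finite_real_spectrum
  set S : Finset ℝ := hf1.toFinset ∪ hf2.toFinset with hS
  set q : Polynomial ℝ := Lagrange.interpolate S id f with hq
  have hqe : ∀ t ∈ S, q.eval t = f t := by
    intro t ht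
    exact Lagrange.eval_interpolate_at_node f Function.injective_id.injOn ht
  have h1 : cfc f A = Polynomial.aeval A q := by
    rw [← cfc_polynomial q A (show IsSelfAdjoint _ from hA)]
    apply cfc_congr
    intro t ht
    exact (hqe t (Finset.mem_union_left _ (hf1.mem_toFinset.2 ht))).symm
  have h2 : cfc f Aᵀ = Polynomial.aeval Aᵀ q := by
    rw [← cfc_polynomial q Aᵀ (show IsSelfAdjoint _ from hAt)]
    apply cfc_congr
    intro t ht
    exact (hqe t (Finset.mem_union_right _ (hf2.mem_toFinset.2 ht))).symm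
  rw [h1, h2, aeval_transpose]

lemma zero_of_trace {A : Matrix b b ℂ} (hA : A.PosSemidef) (n : ℕ) (hn : n ≠ 0)
    (h : trace (A ^ n) = 0) : A = 0 := by
  set U : Matrix b b ℂ := (hA.1.eigenvectorUnitary : Matrix b b ℂ) with hU
  have hU1 : U * star U = 1 := Unitary.coe_mul_star_self _
  have hU2 : star U * U = 1 := Unitary.coe_star_mul_self _
  have hAe : A = U * diagonal (fun i => (hA.1.eigenvalues i : ℂ)) * star U := by
    conv_lhs => rw [hA.1.spectral_theorem]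
    rfl
  have hAk : A ^ n = U * diagonal (fun i => ((hA.1.eigenvalues i ^ n : ℝ) : ℂ)) * star U := by
    have := aeval_conj_diag U hU1 hU2 hA.1.eigenvalues (Polynomial.X ^ n)
    rw [← hAe] at this
    simpa using this
  rw [hAk, mul_assoc, trace_mul_comm, mul_assoc, hU2, mul_one, trace_diagonal,
    ← Complex.ofReal_sum] at h
  have h0 : ∑ i, hA.1.eigenvalues i ^ n = 0 := by exact_mod_cast h
  rw [Finset.sum_eq_zero_iff_of_nonneg (fun i _ => pow_nonneg (hA.eigenvalues_nonneg i) n)] at h0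
  have h1 : ∀ i, hA.1.eigenvalues i = 0 := fun i => pow_eq_zero_iff hn |>.1 (h0 i (Finset.mem_univ i))
  rw [hAe]
  have : (fun i => (hA.1.eigenvalues i : ℂ)) = 0 := by ext i; simp [h1 i]
  rw [this]; simp

/-- The reduction to traces of words in two positive semidefinite matrices. -/
theorem reduceE (n : ℕ) (hn : 2 ≤ n) (σ : Fin 2 → Matrix b b ℂ) (σ' : Fin 2 → Matrix c c ℂ)
    (hσ : ∀ k, IsDensity (σ k)) (hσ' : ∀ k, IsDensity (σ' k)) :
    ∃ (A B : Matrix b b ℂ) (A' B' : Matrix c c ℂ),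
      A = mpow (marg (cq σ)) ((1 - (n : ℝ)) / (2 * n)) * ((1 / 2 : ℂ) • σ 0) *
        mpow (marg (cq σ)) ((1 - (n : ℝ)) / (2 * n)) ∧
      B = mpow (marg (cq σ)) ((1 - (n : ℝ)) / (2 * n)) * ((1 / 2 : ℂ) • σ 1) *
        mpow (marg (cq σ)) ((1 - (n : ℝ)) / (2 * n)) ∧
      A' = mpow (marg (cq σ')) ((1 - (n : ℝ)) / (2 * n)) * ((1 / 2 : ℂ) • σ' 0) *
        mpow (marg (cq σ')) ((1 - (n : ℝ)) / (2 * n)) ∧
      B' = mpow (marg (cq σ')) ((1 - (n : ℝ)) / (2 * n)) * ((1 / 2 : ℂ) • σ' 1) *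
        mpow (marg (cq σ')) ((1 - (n : ℝ)) / (2 * n)) ∧ A.PosSemidef ∧ B.PosSemidef ∧ A'.PosSemidef ∧
      B'.PosSemidef ∧ trace ((A + B) ^ n) = 1 ∧ trace ((A' + B') ^ n) = 1 ∧
      Qtr n (cq σ) = (trace (A ^ n) + trace (B ^ n)).re ∧
      Qtr n (cq σ') = (trace (A' ^ n) + trace (B' ^ n)).re ∧
      Qtr n (tau σ σ') = (trace ((A ⊗ₖ A' + B ⊗ₖ B') ^ n) + trace ((A ⊗ₖ B' + B ⊗ₖ A') ^ n)).re := by
  set γ : ℝ := (1 - (n : ℝ)) / (2 * n) with hγ
  set G := mpow (marg (cq σ)) γ with hG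
  set G' := mpow (marg (cq σ')) γ with hG'
  have hGh : G.IsHermitian := isHermitian_mpow _ _
  have hGh' : G'.IsHermitian := isHermitian_mpow _ _
  have hp : ∀ k, (G * ((1 / 2 : ℂ) • σ k) * G).PosSemidef := fun k =>
    psd_sand hGh ((hσ k).1.smul half_nn)
  have hp' : ∀ k, (G' * ((1 / 2 : ℂ) • σ' k) * G').PosSemidef := fun k =>
    psd_sand hGh' ((hσ' k).1.smul half_nn)
  have hs : (G * ((1 / 2 : ℂ) • σ 0) * G) + (G * ((1 / 2 : ℂ) • σ 1) * G) = G * marg (cq σ) * G := by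
    rw [marg_cq]; noncomm_ring
  have hs' : (G' * ((1 / 2 : ℂ) • σ' 0) * G') + (G' * ((1 / 2 : ℂ) • σ' 1) * G') =
      G' * marg (cq σ') * G' := by
    rw [marg_cq]; noncomm_ring
  refine ⟨G * ((1 / 2 : ℂ) • σ 0) * G, G * ((1 / 2 : ℂ) • σ 1) * G,
    G' * ((1 / 2 : ℂ) • σ' 0) * G', G' * ((1 / 2 : ℂ) • σ' 1) * G', rfl, rfl, rfl, rfl, hp 0, hp 1, hp' 0, hp' 1,
    ?_, ?_, ?_, ?_, ?_⟩
  · rw [hs, hG, hγ, sand_pow n hn _ (psd_marg σ hσ), trace_marg σ hσ]
  · rw [hs', hG', hγ, sand_pow n hn _ (psd_marg σ' hσ'), trace_marg σ' hσ']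
  · unfold Qtr
    have : sand n (cq σ) = blockDiagonal fun k => G * ((1 / 2 : ℂ) • σ k) * G := sand_blk _ _
    rw [this, trace_blk n _ (fun k => (hp k).1)]
  · unfold Qtr
    have : sand n (cq σ') = blockDiagonal fun k => G' * ((1 / 2 : ℂ) • σ' k) * G' := sand_blk _ _
    rw [this, trace_blk n _ (fun k => (hp' k).1)]
  · unfold Qtr
    have hGt : mpow (marg (tau σ σ')) γ = G ⊗ₖ G' := by
      rw [marg_tau, hG, hG']
      exact cfc_kron _ _ (psd_marg σ hσ) (psd_marg σ' hσ') _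
        (fun s t h1 h2 => Real.mul_rpow h1 h2)
    have hmul : ∀ (P : Matrix b b ℂ) (P' : Matrix c c ℂ),
        (G ⊗ₖ G') * ((1 / 4 : ℂ) • (P ⊗ₖ P')) * (G ⊗ₖ G') =
          (G * ((1 / 2 : ℂ) • P) * G) ⊗ₖ (G' * ((1 / 2 : ℂ) • P') * G') := by
      intro P P'
      rw [mul_kronecker_mul, mul_kronecker_mul, smul_kronecker, kronecker_smul, smul_smul]
      norm_num
    have h2 : sand n (tau σ σ') = blockDiagonal fun k => (G ⊗ₖ G') *
        ((1 / 4 : ℂ) • ∑ x₁ : Fin 2, ∑ x₂ : Fin 2, if x₁ + x₂ = k then σ x₁ ⊗ₖ σ' x₂ else 0) *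
        (G ⊗ₖ G') := by
      rw [← hGt]; exact sand_blk _ _
    have hk0 : (G ⊗ₖ G') * ((1 / 4 : ℂ) • ∑ x₁ : Fin 2, ∑ x₂ : Fin 2,
        if x₁ + x₂ = 0 then σ x₁ ⊗ₖ σ' x₂ else 0) * (G ⊗ₖ G') =
        (G * ((1 / 2 : ℂ) • σ 0) * G) ⊗ₖ (G' * ((1 / 2 : ℂ) • σ' 0) * G') +
        (G * ((1 / 2 : ℂ) • σ 1) * G) ⊗ₖ (G' * ((1 / 2 : ℂ) • σ' 1) * G') := by
      rw [← hmul, ← hmul]
      simp [Fin.sum_univ_two, mul_add, add_mul]
    have hk1 : (G ⊗ₖ G') * ((1 / 4 : ℂ) • ∑ x₁ : Fin 2, ∑ x₂ : Fin 2,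
        if x₁ + x₂ = 1 then σ x₁ ⊗ₖ σ' x₂ else 0) * (G ⊗ₖ G') =
        (G * ((1 / 2 : ℂ) • σ 0) * G) ⊗ₖ (G' * ((1 / 2 : ℂ) • σ' 1) * G') +
        (G * ((1 / 2 : ℂ) • σ 1) * G) ⊗ₖ (G' * ((1 / 2 : ℂ) • σ' 0) * G') := by
      rw [← hmul, ← hmul]
      simp [Fin.sum_univ_two, mul_add, add_mul]
    rw [h2, trace_blk n]
    · rw [hk0, hk1]
    · intro k
      fin_cases k
      · show IsHermitian _
        simp only [Fin.zero_eta]
        rw [hk0]
        exact (((hp 0).kronecker (hp' 0)).add ((hp 1).kronecker (hp' 1))).1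
      · show IsHermitian _
        simp only [Fin.mk_one]
        rw [hk1]
        exact (((hp 0).kronecker (hp' 1)).add ((hp 1).kronecker (hp' 0))).1


theorem reduceT (n : ℕ) (hn : 2 ≤ n) (σ : Fin 2 → Matrix b b ℂ) (hσ : ∀ k, IsDensity (σ k)) :
    ∃ A B : Matrix b b ℂ, A.PosSemidef ∧ B.PosSemidef ∧ trace ((A + B) ^ n) = 1 ∧
      Qtr n (cq σ) = (trace (A ^ n) + trace (B ^ n)).re ∧
      Qtr n (cq fun k => (σ k)ᵀ) = (trace (A ^ n) + trace (B ^ n)).re ∧
      Qtr n (tau σ fun k => (σ k)ᵀ) =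
        (trace ((A ⊗ₖ Aᵀ + B ⊗ₖ Bᵀ) ^ n) + trace ((A ⊗ₖ Bᵀ + B ⊗ₖ Aᵀ) ^ n)).re := by
  have hσt : ∀ k, IsDensity ((fun k => (σ k)ᵀ) k) := fun k =>
    ⟨(hσ k).1.transpose, by rw [trace_transpose]; exact (hσ k).2⟩
  obtain ⟨A, B, A', B', hAe, hBe, hAe', hBe', hA, hB, hA', hB', h, h', q1, q2, q3⟩ :=
    reduceE n hn σ (fun k => (σ k)ᵀ) hσ hσt
  have hm : marg (cq fun k => (σ k)ᵀ) = (marg (cq σ))ᵀ := by
    rw [marg_cq, marg_cq, transpose_add, transpose_smul, transpose_smul]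
  have hG : mpow (marg (cq fun k => (σ k)ᵀ)) ((1 - (n : ℝ)) / (2 * n)) =
      (mpow (marg (cq σ)) ((1 - (n : ℝ)) / (2 * n)))ᵀ := by
    rw [hm]; exact cfc_transpose _ (psd_marg σ hσ).1 _
  have hAA : A' = Aᵀ := by
    rw [hAe', hAe, hG, transpose_mul, transpose_mul, transpose_smul, mul_assoc]
  have hBB : B' = Bᵀ := by
    rw [hBe', hBe, hG, transpose_mul, transpose_mul, transpose_smul, mul_assoc]
  subst hAA; subst hBB
  refine ⟨A, B, hA, hB, h, q1, ?_, q3⟩
  rw [q2, ← transpose_pow, ← transpose_pow, trace_transpose, trace_transpose]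

end H143.Ric
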