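import Pool.Agent.H143.Ric

/-! Traces of words in two positive semidefinite matrices, and the resulting inequalities. -/

open Matrix Kronecker ComplexOrder

namespace H143.Ric

set_option linter.unusedSectionVars false
set_option linter.unusedSimpArgs false

variable {b c : Type} [Fintype b] [DecidableEq b] [Fintype c] [DecidableEq c]

lemma tr_pow {A B : Matrix b b ℂ} (hA : A.PosSemidef) (hB : B.PosSemidef) :
    ∃ (a e : b → ℝ) (w : b → b → ℝ), (∀ i, 0 ≤ a i) ∧ (∀ j, 0 ≤ e j) ∧ (∀ i j, 0 ≤ w i j) ∧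
      ∀ k l : ℕ, trace (A ^ k * B ^ l) = ((∑ i, ∑ j, a i ^ k * e j ^ l * w i j : ℝ) : ℂ) := by
  classical
  set U : Matrix b b ℂ := (hA.1.eigenvectorUnitary : Matrix b b ℂ) with hU
  set V : Matrix b b ℂ := (hB.1.eigenvectorUnitary : Matrix b b ℂ) with hV
  have hU1 : U * star U = 1 := Unitary.coe_mul_star_self _
  have hU2 : star U * U = 1 := Unitary.coe_star_mul_self _
  have hV1 : V * star V = 1 := Unitary.coe_mul_star_self _
  have hV2 : star V * V = 1 := Unitary.coe_star_mul_self _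
  have hAe : A = U * diagonal (fun i => (hA.1.eigenvalues i : ℂ)) * star U := by
    conv_lhs => rw [hA.1.spectral_theorem]
    rfl
  have hBe : B = V * diagonal (fun i => (hB.1.eigenvalues i : ℂ)) * star V := by
    conv_lhs => rw [hB.1.spectral_theorem]
    rfl
  have hAk : ∀ k : ℕ, A ^ k = U * diagonal (fun i => ((hA.1.eigenvalues i ^ k : ℝ) : ℂ)) * star U := by
    intro k
    have := aeval_conj_diag U hU1 hU2 hA.1.eigenvalues (Polynomial.X ^ k)
    rw [← hAe] at this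
    simpa using this
  have hBk : ∀ k : ℕ, B ^ k = V * diagonal (fun i => ((hB.1.eigenvalues i ^ k : ℝ) : ℂ)) * star V := by
    intro k
    have := aeval_conj_diag V hV1 hV2 hB.1.eigenvalues (Polynomial.X ^ k)
    rw [← hBe] at this
    simpa using this
  refine ⟨hA.1.eigenvalues, hB.1.eigenvalues, fun i j => Complex.normSq ((star U * V) i j),
    hA.eigenvalues_nonneg, hB.eigenvalues_nonneg, fun i j => Complex.normSq_nonneg _, ?_⟩
  intro k l
  have h1 : trace (A ^ k * B ^ l) = trace (diagonal (fun i => ((hA.1.eigenvalues i ^ k : ℝ) : ℂ)) *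
      ((star U * V) * diagonal (fun i => ((hB.1.eigenvalues i ^ l : ℝ) : ℂ)) * star (star U * V))) := by
    rw [hAk, hBk]
    have : U * diagonal (fun i => ((hA.1.eigenvalues i ^ k : ℝ) : ℂ)) * star U *
        (V * diagonal (fun i => ((hB.1.eigenvalues i ^ l : ℝ) : ℂ)) * star V) =
        U * (diagonal (fun i => ((hA.1.eigenvalues i ^ k : ℝ) : ℂ)) * star U *
        (V * diagonal (fun i => ((hB.1.eigenvalues i ^ l : ℝ) : ℂ)) * star V)) := by
      simp only [mul_assoc]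
    rw [this, trace_mul_comm, star_mul, star_star]
    simp only [mul_assoc]
  rw [h1]
  simp only [trace, diag_apply, diagonal_mul]
  push_cast
  refine Finset.sum_congr rfl fun i _ => ?_
  rw [mul_apply, Finset.mul_sum]
  refine Finset.sum_congr rfl fun j _ => ?_
  rw [mul_diagonal, star_apply, Complex.normSq_eq_conj_mul_self]
  simp only [starRingEnd_apply]
  push_cast
  ring

lemma nn (M : Matrix b b ℂ) : ∃ r : ℝ, 0 ≤ r ∧ trace (Mᴴ * M) = (r : ℂ) := by
  have h := (posSemidef_conjTranspose_mul_self M).trace_nonneg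
  rw [Complex.le_def] at h
  refine ⟨(trace (Mᴴ * M)).re, h.1, ?_⟩
  apply Complex.ext
  · simp
  · simpa using h.2.symm

lemma cy_ABA (A B : Matrix b b ℂ) : trace (A*B*A) = trace (A*A*B) := by
  have := trace_mul_comm (A*B) (A)
  simpa only [mul_assoc] using this
lemma cy_BAA (A B : Matrix b b ℂ) : trace (B*A*A) = trace (A*A*B) := by
  have := trace_mul_comm (B) (A*A)
  simpa only [mul_assoc] using this
lemma cy_BAB (A B : Matrix b b ℂ) : trace (B*A*B) = trace (A*B*B) := by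
  have := trace_mul_comm (B) (A*B)
  simpa only [mul_assoc] using this
lemma cy_BBA (A B : Matrix b b ℂ) : trace (B*B*A) = trace (A*B*B) := by
  have := trace_mul_comm (B*B) (A)
  simpa only [mul_assoc] using this

lemma ex3a (A B : Matrix b b ℂ) (A' B' : Matrix c c ℂ) :
    trace ((A ⊗ₖ A' + B ⊗ₖ B') ^ 3) = 1 * (trace (A*A*A) * trace (A'*A'*A')) + 3 * (trace (A*A*B) * trace (A'*A'*B')) + 3 * (trace (A*B*B) * trace (A'*B'*B')) + 1 * (trace (B*B*B) * trace (B'*B'*B')) := by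
  simp only [pow_succ, pow_zero, one_mul, mul_add, add_mul, ← mul_kronecker_mul, trace_add,
    trace_kronecker]
  simp only [cy_ABA A B, cy_ABA A' B' , cy_BAA A B, cy_BAA A' B' , cy_BAB A B, cy_BAB A' B' , cy_BBA A B, cy_BBA A' B']
  ring

lemma ex3s (A B : Matrix b b ℂ) :
    trace ((A + B) ^ 3) = 1 * trace (A*A*A) + 3 * trace (A*A*B) + 3 * trace (A*B*B) + 1 * trace (B*B*B) := by
  simp only [pow_succ, pow_zero, one_mul, mul_add, add_mul, trace_add]
  simp only [cy_ABA A B, cy_BAA A B, cy_BAB A B, cy_BBA A B]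
  ring

lemma cy_AABA (A B : Matrix b b ℂ) : trace (A*A*B*A) = trace (A*A*A*B) := by
  have := trace_mul_comm (A*A*B) (A)
  simpa only [mul_assoc] using this
lemma cy_ABAA (A B : Matrix b b ℂ) : trace (A*B*A*A) = trace (A*A*A*B) := by
  have := trace_mul_comm (A*B) (A*A)
  simpa only [mul_assoc] using this
lemma cy_ABBA (A B : Matrix b b ℂ) : trace (A*B*B*A) = trace (A*A*B*B) := by
  have := trace_mul_comm (A*B*B) (A)
  simpa only [mul_assoc] using this
lemma cy_BAAA (A B : Matrix b b ℂ) : trace (B*A*A*A) = trace (A*A*A*B) := by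
  have := trace_mul_comm (B) (A*A*A)
  simpa only [mul_assoc] using this
lemma cy_BAAB (A B : Matrix b b ℂ) : trace (B*A*A*B) = trace (A*A*B*B) := by
  have := trace_mul_comm (B) (A*A*B)
  simpa only [mul_assoc] using this
lemma cy_BABA (A B : Matrix b b ℂ) : trace (B*A*B*A) = trace (A*B*A*B) := by
  have := trace_mul_comm (B) (A*B*A)
  simpa only [mul_assoc] using this
lemma cy_BABB (A B : Matrix b b ℂ) : trace (B*A*B*B) = trace (A*B*B*B) := by
  have := trace_mul_comm (B) (A*B*B)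
  simpa only [mul_assoc] using this
lemma cy_BBAA (A B : Matrix b b ℂ) : trace (B*B*A*A) = trace (A*A*B*B) := by
  have := trace_mul_comm (B*B) (A*A)
  simpa only [mul_assoc] using this
lemma cy_BBAB (A B : Matrix b b ℂ) : trace (B*B*A*B) = trace (A*B*B*B) := by
  have := trace_mul_comm (B*B) (A*B)
  simpa only [mul_assoc] using this
lemma cy_BBBA (A B : Matrix b b ℂ) : trace (B*B*B*A) = trace (A*B*B*B) := by
  have := trace_mul_comm (B*B*B) (A)
  simpa only [mul_assoc] using this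

lemma ex4a (A B : Matrix b b ℂ) (A' B' : Matrix c c ℂ) :
    trace ((A ⊗ₖ A' + B ⊗ₖ B') ^ 4) = 1 * (trace (A*A*A*A) * trace (A'*A'*A'*A')) + 4 * (trace (A*A*A*B) * trace (A'*A'*A'*B')) + 4 * (trace (A*A*B*B) * trace (A'*A'*B'*B')) + 2 * (trace (A*B*A*B) * trace (A'*B'*A'*B')) + 4 * (trace (A*B*B*B) * trace (A'*B'*B'*B')) + 1 * (trace (B*B*B*B) * trace (B'*B'*B'*B')) := by
  simp only [pow_succ, pow_zero, one_mul, mul_add, add_mul, ← mul_kronecker_mul, trace_add,
    trace_kronecker]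
  simp only [cy_AABA A B, cy_AABA A' B' , cy_ABAA A B, cy_ABAA A' B' , cy_ABBA A B, cy_ABBA A' B' , cy_BAAA A B, cy_BAAA A' B' , cy_BAAB A B, cy_BAAB A' B' , cy_BABA A B, cy_BABA A' B' , cy_BABB A B, cy_BABB A' B' , cy_BBAA A B, cy_BBAA A' B' , cy_BBAB A B, cy_BBAB A' B' , cy_BBBA A B, cy_BBBA A' B']
  ring

lemma ex4s (A B : Matrix b b ℂ) :
    trace ((A + B) ^ 4) = 1 * trace (A*A*A*A) + 4 * trace (A*A*A*B) + 4 * trace (A*A*B*B) + 2 * trace (A*B*A*B) + 4 * trace (A*B*B*B) + 1 * trace (B*B*B*B) := by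
  simp only [pow_succ, pow_zero, one_mul, mul_add, add_mul, trace_add]
  simp only [cy_AABA A B, cy_ABAA A B, cy_ABBA A B, cy_BAAA A B, cy_BAAB A B, cy_BABA A B, cy_BABB A B, cy_BBAA A B, cy_BBAB A B, cy_BBBA A B]
  ring

lemma cy_AAABA (A B : Matrix b b ℂ) : trace (A*A*A*B*A) = trace (A*A*A*A*B) := by
  have := trace_mul_comm (A*A*A*B) (A)
  simpa only [mul_assoc] using this
lemma cy_AABAA (A B : Matrix b b ℂ) : trace (A*A*B*A*A) = trace (A*A*A*A*B) := by
  have := trace_mul_comm (A*A*B) (A*A)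
  simpa only [mul_assoc] using this
lemma cy_AABBA (A B : Matrix b b ℂ) : trace (A*A*B*B*A) = trace (A*A*A*B*B) := by
  have := trace_mul_comm (A*A*B*B) (A)
  simpa only [mul_assoc] using this
lemma cy_ABAAA (A B : Matrix b b ℂ) : trace (A*B*A*A*A) = trace (A*A*A*A*B) := by
  have := trace_mul_comm (A*B) (A*A*A)
  simpa only [mul_assoc] using this
lemma cy_ABAAB (A B : Matrix b b ℂ) : trace (A*B*A*A*B) = trace (A*A*B*A*B) := by
  have := trace_mul_comm (A*B) (A*A*B)
  simpa only [mul_assoc] using this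
lemma cy_ABABA (A B : Matrix b b ℂ) : trace (A*B*A*B*A) = trace (A*A*B*A*B) := by
  have := trace_mul_comm (A*B*A*B) (A)
  simpa only [mul_assoc] using this
lemma cy_ABBAA (A B : Matrix b b ℂ) : trace (A*B*B*A*A) = trace (A*A*A*B*B) := by
  have := trace_mul_comm (A*B*B) (A*A)
  simpa only [mul_assoc] using this
lemma cy_ABBAB (A B : Matrix b b ℂ) : trace (A*B*B*A*B) = trace (A*B*A*B*B) := by
  have := trace_mul_comm (A*B*B) (A*B)
  simpa only [mul_assoc] using this
lemma cy_ABBBA (A B : Matrix b b ℂ) : trace (A*B*B*B*A) = trace (A*A*B*B*B) := by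
  have := trace_mul_comm (A*B*B*B) (A)
  simpa only [mul_assoc] using this
lemma cy_BAAAA (A B : Matrix b b ℂ) : trace (B*A*A*A*A) = trace (A*A*A*A*B) := by
  have := trace_mul_comm (B) (A*A*A*A)
  simpa only [mul_assoc] using this
lemma cy_BAAAB (A B : Matrix b b ℂ) : trace (B*A*A*A*B) = trace (A*A*A*B*B) := by
  have := trace_mul_comm (B) (A*A*A*B)
  simpa only [mul_assoc] using this
lemma cy_BAABA (A B : Matrix b b ℂ) : trace (B*A*A*B*A) = trace (A*A*B*A*B) := by
  have := trace_mul_comm (B) (A*A*B*A)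
  simpa only [mul_assoc] using this
lemma cy_BAABB (A B : Matrix b b ℂ) : trace (B*A*A*B*B) = trace (A*A*B*B*B) := by
  have := trace_mul_comm (B) (A*A*B*B)
  simpa only [mul_assoc] using this
lemma cy_BABAA (A B : Matrix b b ℂ) : trace (B*A*B*A*A) = trace (A*A*B*A*B) := by
  have := trace_mul_comm (B*A*B) (A*A)
  simpa only [mul_assoc] using this
lemma cy_BABAB (A B : Matrix b b ℂ) : trace (B*A*B*A*B) = trace (A*B*A*B*B) := by
  have := trace_mul_comm (B) (A*B*A*B)
  simpa only [mul_assoc] using this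
lemma cy_BABBA (A B : Matrix b b ℂ) : trace (B*A*B*B*A) = trace (A*B*A*B*B) := by
  have := trace_mul_comm (B*A*B*B) (A)
  simpa only [mul_assoc] using this
lemma cy_BABBB (A B : Matrix b b ℂ) : trace (B*A*B*B*B) = trace (A*B*B*B*B) := by
  have := trace_mul_comm (B) (A*B*B*B)
  simpa only [mul_assoc] using this
lemma cy_BBAAA (A B : Matrix b b ℂ) : trace (B*B*A*A*A) = trace (A*A*A*B*B) := by
  have := trace_mul_comm (B*B) (A*A*A)
  simpa only [mul_assoc] using this
lemma cy_BBAAB (A B : Matrix b b ℂ) : trace (B*B*A*A*B) = trace (A*A*B*B*B) := by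
  have := trace_mul_comm (B*B) (A*A*B)
  simpa only [mul_assoc] using this
lemma cy_BBABA (A B : Matrix b b ℂ) : trace (B*B*A*B*A) = trace (A*B*A*B*B) := by
  have := trace_mul_comm (B*B) (A*B*A)
  simpa only [mul_assoc] using this
lemma cy_BBABB (A B : Matrix b b ℂ) : trace (B*B*A*B*B) = trace (A*B*B*B*B) := by
  have := trace_mul_comm (B*B) (A*B*B)
  simpa only [mul_assoc] using this
lemma cy_BBBAA (A B : Matrix b b ℂ) : trace (B*B*B*A*A) = trace (A*A*B*B*B) := by
  have := trace_mul_comm (B*B*B) (A*A)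
  simpa only [mul_assoc] using this
lemma cy_BBBAB (A B : Matrix b b ℂ) : trace (B*B*B*A*B) = trace (A*B*B*B*B) := by
  have := trace_mul_comm (B*B*B) (A*B)
  simpa only [mul_assoc] using this
lemma cy_BBBBA (A B : Matrix b b ℂ) : trace (B*B*B*B*A) = trace (A*B*B*B*B) := by
  have := trace_mul_comm (B*B*B*B) (A)
  simpa only [mul_assoc] using this

lemma ex5a (A B : Matrix b b ℂ) (A' B' : Matrix c c ℂ) :
    trace ((A ⊗ₖ A' + B ⊗ₖ B') ^ 5) = 1 * (trace (A*A*A*A*A) * trace (A'*A'*A'*A'*A')) + 5 * (trace (A*A*A*A*B) * trace (A'*A'*A'*A'*B')) + 5 * (trace (A*A*A*B*B) * trace (A'*A'*A'*B'*B')) + 5 * (trace (A*A*B*A*B) * trace (A'*A'*B'*A'*B')) + 5 * (trace (A*A*B*B*B) * trace (A'*A'*B'*B'*B')) + 5 * (trace (A*B*A*B*B) * trace (A'*B'*A'*B'*B')) + 5 * (trace (A*B*B*B*B) * trace (A'*B'*B'*B'*B')) + 1 * (trace (B*B*B*B*B) * trace (B'*B'*B'*B'*B')) := by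
  simp only [pow_succ, pow_zero, one_mul, mul_add, add_mul, ← mul_kronecker_mul, trace_add,
    trace_kronecker]
  simp only [cy_AAABA A B, cy_AAABA A' B' , cy_AABAA A B, cy_AABAA A' B' , cy_AABBA A B, cy_AABBA A' B' , cy_ABAAA A B, cy_ABAAA A' B' , cy_ABAAB A B, cy_ABAAB A' B' , cy_ABABA A B, cy_ABABA A' B' , cy_ABBAA A B, cy_ABBAA A' B' , cy_ABBAB A B, cy_ABBAB A' B' , cy_ABBBA A B, cy_ABBBA A' B' , cy_BAAAA A B, cy_BAAAA A' B' , cy_BAAAB A B, cy_BAAAB A' B' , cy_BAABA A B, cy_BAABA A' B' , cy_BAABB A B, cy_BAABB A' B' , cy_BABAA A B, cy_BABAA A' B' , cy_BABAB A B, cy_BABAB A' B' , cy_BABBA A B, cy_BABBA A' B' , cy_BABBB A B, cy_BABBB A' B' , cy_BBAAA A B, cy_BBAAA A' B' , cy_BBAAB A B, cy_BBAAB A' B' , cy_BBABA A B, cy_BBABA A' B' , cy_BBABB A B, cy_BBABB A' B' , cy_BBBAA A B, cy_BBBAA A' B' , cy_BBBAB A B, cy_BBBAB A' B' , cy_BBBBA A B, cy_BBBBA A' B']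
  ring

lemma ex5s (A B : Matrix b b ℂ) :
    trace ((A + B) ^ 5) = 1 * trace (A*A*A*A*A) + 5 * trace (A*A*A*A*B) + 5 * trace (A*A*A*B*B) + 5 * trace (A*A*B*A*B) + 5 * trace (A*A*B*B*B) + 5 * trace (A*B*A*B*B) + 5 * trace (A*B*B*B*B) + 1 * trace (B*B*B*B*B) := by
  simp only [pow_succ, pow_zero, one_mul, mul_add, add_mul, trace_add]
  simp only [cy_AAABA A B, cy_AABAA A B, cy_AABBA A B, cy_ABAAA A B, cy_ABAAB A B, cy_ABABA A B, cy_ABBAA A B, cy_ABBAB A B, cy_ABBBA A B, cy_BAAAA A B, cy_BAAAB A B, cy_BAABA A B, cy_BAABB A B, cy_BABAA A B, cy_BABAB A B, cy_BABBA A B, cy_BABBB A B, cy_BBAAA A B, cy_BBAAB A B, cy_BBABA A B, cy_BBABB A B, cy_BBBAA A B, cy_BBBAB A B, cy_BBBBA A B]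
  ring

end H143.Ric
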